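import Pool.Agent.H58.CP.ColList
import Pool.Agent.H6.CP.Basic

set_option autoImplicit false
set_option linter.unusedVariables false

/-! An active column: the representation of the localised function, the candidates. -/

namespace Pool.Agent.H58.CP

open Finset ComplexConjugate H95.CP H67.CM Pool.Agent.H98.CP Pool.Agent.H74.CM

/-- the localised function in terms of the coefficients of `g` -/
theorem co2_loc {M j b c : ℕ} (hb : Large j b) (hc : Large j c) (hLb : 6 * 8 ^ b ≤ LL M)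
    (hLc : 6 * 8 ^ c ≤ LL M) (F : G M → ℂ) (μ : G M) :
    co2 (loc j b c F) μ = ((ka j b (fa μ.1) : ℂ) * (ka j c (fa μ.2) : ℂ)) * co2 F μ := by
  unfold loc
  rw [co2_conv]
  have h := co2_vs (L := LL M) hb hc hLb hLc μ
  unfold cx
  rw [h]

theorem co2_loc_mul {M j b c : ℕ} (hb : Large j b) (hc : Large j c) (hLb : 6 * 8 ^ b ≤ LL M)
    (hLc : 6 * 8 ^ c ≤ LL M) (g Ψ : G M → ℝ) (μ : G M) :
    co2 (loc j b c (cx (fun x => g x * Ψ x))) μ
      = ((ka j b (fa μ.1) : ℂ) * (ka j c (fa μ.2) : ℂ)) * co2 (cx g) μ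
        + ∑ lam : G M, co2 (cx g) lam * co2 (wl j b c Ψ lam) μ := by
  rw [co2_loc hb hc hLb hLc]
  have h1 : cx (fun x => g x * Ψ x) = fun x => cx g x +
      ∑ lam : G M, co2 (cx g) lam * (((Ψ x : ℂ) - 1) * ch2 lam x) := by
    funext x
    have h2 := inversion2 (cx g) x
    have h3 : ∑ lam : G M, co2 (cx g) lam * (((Ψ x : ℂ) - 1) * ch2 lam x)
        = ((Ψ x : ℂ) - 1) * cx g x := by
      rw [h2, Finset.mul_sum]
      refine Finset.sum_congr rfl fun lam _ => ?_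
      ring
    rw [h3]
    unfold cx
    push_cast
    ring
  rw [h1, co2_add, co2_sum, mul_add, Finset.mul_sum]
  congr 1
  refine Finset.sum_congr rfl fun lam _ => ?_
  rw [co2_smul]
  unfold wl
  rw [co2_loc hb hc hLb hLc]
  ring

theorem size_add (u D : ℕ) : Nat.size (u + D) ≤ Nat.size u + Nat.size D := by
  rcases Nat.eq_zero_or_pos u with hu | hu
  · subst hu; simp
  rcases Nat.eq_zero_or_pos D with hD | hD
  · subst hD; simp
  rw [Nat.size_le]
  have h1 : u < 2 ^ Nat.size u := Nat.lt_size_self u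
  have h2 : D < 2 ^ Nat.size D := Nat.lt_size_self D
  have h3 : 2 ≤ 2 ^ Nat.size u := by omega
  have h4 : 2 ≤ 2 ^ Nat.size D := by omega
  rw [pow_add]
  nlinarith

/-- averages of close functions -/
theorem avgR_close {M b c : ℕ} (hb : 8 ^ (b + 1) ∣ LL M) (hc : 8 ^ (c + 1) ∣ LL M)
    (F F' : G M → ℂ) (ε : ℝ) (hε : 0 ≤ ε)
    (hF : ∀ k, co2 (fun x => F x - F' x) k ≠ 0 → fa k.1 < 3 * 8 ^ b ∧ fa k.2 < 3 * 8 ^ c)
    (hs : ∑ k : G M, ‖co2 (fun x => F x - F' x) k‖ ^ 2 ≤ ε ^ 2)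
    (η : Gr (b + 1) (c + 1) → ℝ) (hη : ∀ y, |η y| ≤ 1) :
    |avgR _ _ (fun y => η y * (F (pt (b + 1) (c + 1) y)).re)
      - avgR _ _ (fun y => η y * (F' (pt (b + 1) (c + 1) y)).re)| ≤ ε := by
  have hP := grid_parseval (L := LL M) hb hc (fun x => F x - F' x) (by
    intro k hk
    obtain ⟨h1, h2⟩ := hF k hk
    constructor
    · rw [pow_succ]; omega
    · rw [pow_succ]; omega)
  rw [← hP] at hs
  set N : ℝ := ((8 ^ (b + 1) : ℕ) : ℝ) * ((8 ^ (c + 1) : ℕ) : ℝ) with hN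
  have hN0 : 0 < N := by positivity
  set D : Gr (b + 1) (c + 1) → ℝ := fun y =>
    ‖F (gp2 (8 ^ (b + 1)) (8 ^ (c + 1)) y) - F' (gp2 (8 ^ (b + 1)) (8 ^ (c + 1)) y)‖ with hD
  have h1 : avgR (8 ^ (b + 1)) (8 ^ (c + 1)) (fun y => η y * (F (pt (b + 1) (c + 1) y)).re)
      - avgR (8 ^ (b + 1)) (8 ^ (c + 1)) (fun y => η y * (F' (pt (b + 1) (c + 1) y)).re)
      = (1 / N) * ∑ y, η y * (F (pt (b + 1) (c + 1) y) - F' (pt (b + 1) (c + 1) y)).re := by
    unfold avgR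
    rw [← mul_sub, ← Finset.sum_sub_distrib]
    congr 1
    refine Finset.sum_congr rfl fun y _ => ?_
    rw [Complex.sub_re]
    ring
  rw [h1, abs_mul, abs_of_pos (by positivity : 0 < 1 / N)]
  have h2 : |∑ y, η y * (F (pt (b + 1) (c + 1) y) - F' (pt (b + 1) (c + 1) y)).re| ≤ ∑ y, D y := by
    refine (Finset.abs_sum_le_sum_abs _ _).trans (Finset.sum_le_sum fun y _ => ?_)
    rw [abs_mul]
    have h3 := Complex.abs_re_le_norm (F (pt (b + 1) (c + 1) y) - F' (pt (b + 1) (c + 1) y))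
    calc |η y| * |(F (pt (b + 1) (c + 1) y) - F' (pt (b + 1) (c + 1) y)).re|
        ≤ 1 * ‖F (pt (b + 1) (c + 1) y) - F' (pt (b + 1) (c + 1) y)‖ :=
          mul_le_mul (hη y) h3 (abs_nonneg _) (by norm_num)
      _ = D y := by rw [one_mul]; rfl
  have h4 : (∑ y, D y) ^ 2 ≤ N * ∑ y, D y ^ 2 := by
    have := sq_sum_le_card_mul_sum_sq (s := (Finset.univ : Finset (Gr (b + 1) (c + 1)))) (f := D)
    rw [Finset.card_univ, Fintype.card_prod, Fintype.card_fin, Fintype.card_fin] at this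
    push_cast at this
    rw [hN]
    push_cast
    exact this
  have h5 : (1 / N) * ∑ y, D y ^ 2 ≤ ε ^ 2 := by
    unfold avgR at hs
    exact hs
  have h6 : 0 ≤ ∑ y, D y := Finset.sum_nonneg fun y _ => norm_nonneg _
  have h7 : ((1 / N) * ∑ y, D y) ^ 2 ≤ ε ^ 2 := by
    refine le_trans ?_ h5
    rw [mul_pow]
    calc (1 / N) ^ 2 * (∑ y, D y) ^ 2 ≤ (1 / N) ^ 2 * (N * ∑ y, D y ^ 2) :=
          mul_le_mul_of_nonneg_left h4 (by positivity)
      _ = (1 / N) * ∑ y, D y ^ 2 := by field_simp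
  have h8 : (1 / N) * ∑ y, D y ≤ ε := abs_le_of_sq_le_sq' h7 hε |>.2
  exact (mul_le_mul_of_nonneg_left h2 (by positivity)).trans h8

/-- the bound of `w_lam` in `L²` -/
theorem wl_L2 {M j b c : ℕ} (Ψ : G M → ℝ) (lam : G M) (B : ℝ)
    (h : ∀ x, ‖wl j b c Ψ lam x‖ ≤ B) :
    ∑ μ : G M, ‖co2 (wl j b c Ψ lam) μ‖ ^ 2 ≤ B ^ 2 := by
  rw [← parseval]
  calc ER (fun x => ‖wl j b c Ψ lam x‖ ^ 2) ≤ ER (fun _ : G M => B ^ 2) :=
        ER_mono fun x => pow_le_pow_left₀ (norm_nonneg _) (h x) 2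
    _ = B ^ 2 := ER_const _

/-- parameters -/
theorem par_facts {j0 j u M : ℕ} (hP : Par 3 j0 j u M) :
    Lg M j ∧ Jok j (JJ u j) (4 * j) ∧ 4 * Nat.size M ≤ M := by
  have hbig := hP.big
  have h3 := hP.h3
  have h1 := hP.h1
  have h2 := hP.h2
  unfold Big at hbig
  refine ⟨?_, ⟨?_, ?_, ?_⟩, by omega⟩
  · unfold Lg
    have hM : M < 2 ^ Nat.size M := Nat.lt_size_self M
    have h8 : 8 ^ Nat.size M = (2 ^ Nat.size M) * ((2 ^ Nat.size M) * (2 ^ Nat.size M)) := by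
      rw [show (8 : ℕ) = 2 * (2 * 2) by norm_num, mul_pow, mul_pow]
    rw [h8]
    have hj : 100 * (j + 2) ≤ M := by omega
    calc 100 * (j + 2) ^ 2 = (100 * (j + 2)) * (j + 2) := by ring
      _ ≤ M * M := Nat.mul_le_mul hj (by omega)
      _ ≤ 2 ^ Nat.size M * 2 ^ Nat.size M := Nat.mul_le_mul hM.le hM.le
      _ ≤ 2 ^ Nat.size M * (2 ^ Nat.size M * 2 ^ Nat.size M) := by
          apply Nat.le_mul_of_pos_left
          positivity
  · unfold JJ
    have hj : j + 2 ≤ 2 ^ (j + 2) := Nat.lt_two_pow_self.le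
    calc 1000 * (j + 2) ^ 2 ≤ 8 ^ 4 * (2 ^ (j + 2)) ^ 2 := by
          apply Nat.mul_le_mul (by norm_num)
          exact Nat.pow_le_pow_left hj 2
      _ ≤ 8 ^ 4 * 8 ^ (j + 2) := by
          apply Nat.mul_le_mul_left
          rw [← pow_mul, mul_comm, pow_mul]
          exact Nat.pow_le_pow_left (by norm_num) _
      _ = 8 ^ (4 + (j + 2)) := (pow_add 8 4 (j + 2)).symm
      _ ≤ 8 ^ (300 * (u + j + 1)) := Nat.pow_le_pow_right (by norm_num) (by omega)
  · omega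
  · unfold JJ
    omega

/-- the far part: finitely many candidates at every scale -/
theorem far_part (hW : StWl) {j0 j u M : ℕ} (hP : Par 3 j0 j u M) (act : Finset ℕ)
    (h : ℕ → G M → ℝ) (b : ℕ) (phi : G M → ℂ)
    (hRS : RS M u j (JJ u j) (4 * j) (SG u j) act h) (hE : Elg M u (JJ u j) (4 * j) act b) :
    ∃ Js : ℕ → Finset (G M),
      (∀ s lam, lam ∈ Js s → ∃ a ∈ act, a < b ∧ Nat.size (b - a) = s ∧
        lam ∈ DD M (j + 1) b (M + u - a) ∧
        ∀ x, ‖wl j b (M + u - b) (Psi h b) lam x‖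
          ≤ 64 * CV j * 8 ^ (SG u j) / 2 ^ gapLen (JJ u j) (b - a)) ∧
      ∀ (F : G M → ℂ) (μ : G M), ∑ lam : G M, F lam * co2 (wl j b (M + u - b) (Psi h b) lam) μ
        = ∑ s ∈ range (Nat.size M + 1), ∑ lam ∈ Js s,
            F lam * co2 (wl j b (M + u - b) (Psi h b) lam) μ := by
  classical
  obtain ⟨hLg, hJ, -⟩ := par_facts hP
  have hJ0 : 0 < JJ u j := by unfold JJ; omega
  set Z : Finset (G M) := univ.filter (fun lam => ¬ ∀ x, wl j b (M + u - b) (Psi h b) lam x = 0)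
    with hZ
  have key : ∀ lam : G M, ∃ a : ℕ, lam ∈ Z → (a ∈ act ∧ lam ∈ DD M (j + 1) b (M + u - a) ∧
      ∀ x, ‖wl j b (M + u - b) (Psi h b) lam x‖
        ≤ 64 * CV j * 8 ^ (SG u j) / 2 ^ gapLen (JJ u j) (b - a)) := by
    intro lam
    by_cases hl : lam ∈ Z
    · rcases hW M u j _ _ _ act h b hRS hLg hJ hE lam with h1 | ⟨a, ha, h2, h3⟩
      · rw [hZ, mem_filter] at hl
        exact absurd h1 hl.2
      · exact ⟨a, fun _ => ⟨ha, h2, h3⟩⟩
    · exact ⟨0, fun h1 => absurd h1 hl⟩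
  choose A hA using key
  have hlt : ∀ lam ∈ Z, A lam < b := by
    intro lam hl
    have := hE.gap _ (hA lam hl).1
    omega
  refine ⟨fun s => Z.filter (fun lam => Nat.size (b - A lam) = s), ?_, ?_⟩
  · intro s lam hl
    rw [mem_filter] at hl
    exact ⟨A lam, (hA lam hl.1).1, hlt lam hl.1, hl.2, (hA lam hl.1).2⟩
  · intro F μ
    have h1 : ∑ lam : G M, F lam * co2 (wl j b (M + u - b) (Psi h b) lam) μ
        = ∑ lam ∈ Z, F lam * co2 (wl j b (M + u - b) (Psi h b) lam) μ := by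
      symm
      refine Finset.sum_subset (Finset.subset_univ _) fun lam _ hl => ?_
      rw [hZ, mem_filter, not_and, not_not] at hl
      have h2 : wl j b (M + u - b) (Psi h b) lam = fun _ => 0 := funext (hl (mem_univ _))
      rw [h2]
      unfold co2 E
      simp
    rw [h1]
    symm
    refine Finset.sum_fiberwise_of_maps_to (g := fun lam => Nat.size (b - A lam)) ?_ _
    intro lam hl
    rw [mem_range]
    have h3 := hlt lam hl
    have h4 : b < M := hE.rng.2.1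
    have h5 : Nat.size (b - A lam) ≤ Nat.size M := Nat.size_le_size (by omega)
    omega

/-- the unknown coefficients of one scale -/
theorem sum_scale {j0 j u M : ℕ} (hP : Par 3 j0 j u M) (act : Finset ℕ)
    (h : ℕ → G M → ℝ) (b : ℕ) (phi : G M → ℂ)
    (hRS : RS M u j (JJ u j) (4 * j) (SG u j) act h) (hE : Elg M u (JJ u j) (4 * j) act b)
    (Jss : Finset (G M)) (s : ℕ)
    (hJs : ∀ lam, lam ∈ Jss → ∃ a ∈ act, a < b ∧ Nat.size (b - a) = s ∧
        lam ∈ DD M (j + 1) b (M + u - a))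
    (w : Cf M) (hk : Know j0 (j + 1) phi w) (hcm : (colm w.Lam b).card ≤ 8 ^ M) :
    ∑ lam ∈ Jss, ‖co2 (cx w.g) lam - phi lam‖ ≤ 8 ^ M * Real.sqrt (TH (j + 1 + s) / 8 ^ M) := by
  classical
  have hone : ∀ lam ∈ Jss, ‖co2 (cx w.g) lam - phi lam‖ ≤ Real.sqrt (TH (j + 1 + s) / 8 ^ M) := by
    intro lam hl
    obtain ⟨a, ha, hab, hs, hD⟩ := hJs lam hl
    have hRa := hRS.rng a ha
    have hRb := hE.rng
    have hR' : Rg M (u + b - a) b := by
      obtain ⟨a1, a2, a3, a4⟩ := hRa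
      obtain ⟨b1, b2, b3, b4⟩ := hRb
      refine ⟨b1, b2, by omega, ?_⟩
      have : M + (u + b - a) - b = M + u - a := by omega
      rw [this]
      exact a4
    have hMM : M + (u + b - a) - b = M + u - a := by
      obtain ⟨a1, a2, a3, a4⟩ := hRa
      omega
    have h1 := hk.2 b (u + b - a) hR' hcm lam (by rw [hMM]; exact hD)
    have h2 : max (j + 1) (j0 + Nat.size (u + b - a)) ≤ j + 1 + s := by
      have h3 : Nat.size (u + b - a) ≤ Nat.size u + s := by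
        rw [← hs, show u + b - a = u + (b - a) by omega]
        exact size_add _ _
      have h4 := hP.h2
      omega
    have h3 : TH (max (j + 1) (j0 + Nat.size (u + b - a))) ≤ TH (j + 1 + s) := by
      unfold TH
      apply pow_le_pow_right₀ (by norm_num)
      omega
    apply Real.le_sqrt_of_sq_le
    refine h1.trans ?_
    gcongr
  have hzero : ∀ lam ∈ Jss, lam ∉ Jss ∩ colm w.Lam b → ‖co2 (cx w.g) lam - phi lam‖ = 0 := by
    intro lam hl hn
    obtain ⟨a, ha, hab, hs, hD⟩ := hJs lam hl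
    have hb1 := (mem_DD.1 hD).1
    have hL : lam ∉ w.Lam := by
      intro hL
      exact hn (mem_inter.2 ⟨hl, mem_colm.2 ⟨hL, hb1.gt, hb1.lt⟩⟩)
    have h1 := w.spec lam hL
    have h2 : phi lam = 0 := by
      by_contra h3
      exact hL (hk.1 lam h3)
    rw [h1, h2]
    simp
  calc ∑ lam ∈ Jss, ‖co2 (cx w.g) lam - phi lam‖
      = ∑ lam ∈ Jss ∩ colm w.Lam b, ‖co2 (cx w.g) lam - phi lam‖ := by
        symm
        exact Finset.sum_subset Finset.inter_subset_left hzero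
    _ ≤ ∑ _lam ∈ Jss ∩ colm w.Lam b, Real.sqrt (TH (j + 1 + s) / 8 ^ M) :=
        Finset.sum_le_sum fun lam hl => hone lam (mem_inter.1 hl).1
    _ = ((Jss ∩ colm w.Lam b).card : ℝ) * Real.sqrt (TH (j + 1 + s) / 8 ^ M) := by
        rw [Finset.sum_const, nsmul_eq_mul]
    _ ≤ 8 ^ M * Real.sqrt (TH (j + 1 + s) / 8 ^ M) := by
        apply mul_le_mul_of_nonneg_right _ (Real.sqrt_nonneg _)
        have : (Jss ∩ colm w.Lam b).card ≤ 8 ^ M :=
          (Finset.card_le_card Finset.inter_subset_right).trans hcm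
        exact_mod_cast this

/-- number of frequencies of one scale -/
theorem card_scale {M u j b s : ℕ} {act : Finset ℕ} (hb : b < M) (Jss : Finset (G M))
    (hJs : ∀ lam, lam ∈ Jss → ∃ a ∈ act, a < b ∧ Nat.size (b - a) = s ∧
        lam ∈ DD M (j + 1) b (M + u - a)) :
    (Jss.card : ℝ) ≤ 36 * 8 ^ (M + u + 2 ^ s) := by
  classical
  have h1 : Jss ⊆ (univ.filter (fun k : ZMod (LL M) => fa k < 3 * 8 ^ b)) ×ˢ
      (univ.filter (fun k : ZMod (LL M) => fa k < 3 * 8 ^ (M + u - b + 2 ^ s))) := by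
    intro k hk
    obtain ⟨a, ha, hab, hs, hD⟩ := hJs k hk
    rw [mem_DD] at hD
    rw [mem_product, mem_filter, mem_filter]
    refine ⟨⟨mem_univ _, hD.1.lt⟩, ⟨mem_univ _, hD.2.lt.trans_le ?_⟩⟩
    apply Nat.mul_le_mul_left
    apply Nat.pow_le_pow_right (by norm_num)
    have h2 : b - a < 2 ^ s := by rw [← hs]; exact Nat.lt_size_self _
    omega
  have h2 : Jss.card ≤ (2 * (3 * 8 ^ b)) * (2 * (3 * 8 ^ (M + u - b + 2 ^ s))) := by
    refine (card_le_card h1).trans ?_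
    rw [card_product]
    exact Nat.mul_le_mul (card_fa_lt _) (card_fa_lt _)
  have h3 : (2 * (3 * 8 ^ b)) * (2 * (3 * 8 ^ (M + u - b + 2 ^ s))) = 36 * 8 ^ (M + u + 2 ^ s) := by
    have : M + u + 2 ^ s = b + (M + u - b + 2 ^ s) := by omega
    rw [this, pow_add 8 b]; ring
  rw [h3] at h2
  exact_mod_cast h2

/-- the sample error of one scale -/
theorem tau_scale (M u j s n : ℕ) (hn : (8 : ℝ) ^ M / 2 ^ (4 * s) ≤ n) (hn0 : 0 < n) :
    4 * (8 ^ M * Real.sqrt (TH (j + 1 + s) / 8 ^ M)) ^ 2 *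
      ((64 * CV j * 8 ^ (SG u j)) ^ 2 / 2 ^ (JJ u j + 60 * s)) / n ≤ ((1 / 64) * (1 / 2 : ℝ) ^ s) ^ 2 := by
  have hnpos : (0 : ℝ) < n := by exact_mod_cast hn0
  have h8M : (0 : ℝ) < 8 ^ M := by positivity
  have e1 : (8 ^ M * Real.sqrt (TH (j + 1 + s) / 8 ^ M)) ^ 2 = 8 ^ M * TH (j + 1 + s) := by
    rw [mul_pow, Real.sq_sqrt (by unfold TH; positivity)]
    field_simp
  rw [e1, div_le_iff₀ hnpos]
  have e2 : ((1 / 64) * (1 / 2 : ℝ) ^ s) ^ 2 * ((8 : ℝ) ^ M / 2 ^ (4 * s))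
      ≤ ((1 / 64) * (1 / 2 : ℝ) ^ s) ^ 2 * n := mul_le_mul_of_nonneg_left hn (by positivity)
  refine le_trans ?_ e2
  have hCV : CV j ≤ 8 ^ (4 + 4 * (j + 1)) := by
    unfold CV
    have h1 : (j : ℝ) + 2 ≤ 8 ^ (j + 1) := by
      have : j + 2 ≤ 8 ^ (j + 1) := by
        calc j + 2 ≤ 2 ^ (j + 1) := Nat.lt_two_pow_self
          _ ≤ 8 ^ (j + 1) := Nat.pow_le_pow_left (by norm_num) _
      exact_mod_cast this
    have h2 : 24 * ((j : ℝ) + 2) ^ 2 ≤ 8 ^ 2 * (8 ^ (j + 1)) ^ 2 := by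
      have h3 : ((j : ℝ) + 2) ^ 2 ≤ (8 ^ (j + 1)) ^ 2 := pow_le_pow_left₀ (by positivity) h1 2
      nlinarith [h3]
    calc (24 * ((j : ℝ) + 2) ^ 2) ^ 2 ≤ (8 ^ 2 * (8 ^ (j + 1)) ^ 2) ^ 2 :=
          pow_le_pow_left₀ (by positivity) h2 2
      _ = 8 ^ (4 + 4 * (j + 1)) := by
          rw [← pow_mul 8 (j + 1) 2, ← pow_add, ← pow_mul]
          congr 1
          ring
  have hCV0 := CV_pos j
  have e3 : (64 * CV j * 8 ^ (SG u j)) ^ 2 ≤ (8 : ℝ) ^ (12 + 8 * (j + 1) + 2 * SG u j) := by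
    calc (64 * CV j * 8 ^ (SG u j)) ^ 2 ≤ (8 ^ 2 * 8 ^ (4 + 4 * (j + 1)) * 8 ^ (SG u j)) ^ 2 := by
          apply pow_le_pow_left₀ (by positivity)
          apply mul_le_mul_of_nonneg_right _ (by positivity)
          have : (64 : ℝ) = 8 ^ 2 := by norm_num
          rw [this]
          exact mul_le_mul_of_nonneg_left hCV (by positivity)
      _ = (8 : ℝ) ^ (12 + 8 * (j + 1) + 2 * SG u j) := by
          rw [← pow_add, ← pow_add, ← pow_mul]
          congr 1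
          ring
  have e4 : (2 : ℝ) ^ (JJ u j + 60 * s) = 8 ^ (100 * (u + j + 1) + 20 * s) := by
    rw [show (8 : ℝ) = 2 ^ 3 by norm_num, ← pow_mul]
    congr 1
    unfold JJ
    ring
  have e5 : (4 : ℝ) ≤ 8 ^ 1 := by norm_num
  calc 4 * (8 ^ M * TH (j + 1 + s)) * ((64 * CV j * 8 ^ (SG u j)) ^ 2 / 2 ^ (JJ u j + 60 * s))
      ≤ 8 ^ 1 * (8 ^ M * TH (j + 1 + s)) *
          ((8 : ℝ) ^ (12 + 8 * (j + 1) + 2 * SG u j) / 2 ^ (JJ u j + 60 * s)) := by
        unfold TH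
        gcongr
    _ = 8 ^ (1 + M + 16 * (j + 1 + s) + (12 + 8 * (j + 1) + 2 * SG u j)) /
          8 ^ (100 * (u + j + 1) + 20 * s) := by
        rw [e4]
        unfold TH
        rw [pow_add, pow_add, pow_add]
        ring
    _ ≤ ((1 / 64) * (1 / 2 : ℝ) ^ s) ^ 2 * ((8 : ℝ) ^ M / 2 ^ (4 * s)) := by
        have e6 : ((1 / 64) * (1 / 2 : ℝ) ^ s) ^ 2 * ((8 : ℝ) ^ M / 2 ^ (4 * s))
            = 8 ^ M / (8 ^ 4 * 8 ^ (2 * s)) := by
          rw [mul_pow, one_div_pow, one_div_pow]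
          have h1 : (8 : ℝ) ^ (2 * s) = (2 ^ s) ^ 2 * 2 ^ (4 * s) := by
            rw [show (8 : ℝ) = 2 ^ 3 by norm_num, ← pow_mul, ← pow_mul, ← pow_add]
            congr 1
            ring
          rw [h1]
          field_simp
          norm_num
        rw [e6, div_le_div_iff₀ (by positivity) (by positivity), ← pow_add, ← pow_add, ← pow_add]
        apply pow_le_pow_right₀ (by norm_num)
        unfold SG
        omega

/-- the cost of one scale -/
theorem bits_scale {M u s n X : ℕ} (hn : n = 8 ^ M / 2 ^ (4 * s) + 1) (hs : 4 * s ≤ M)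
    (hX : (X : ℝ) ≤ 36 * 8 ^ (M + u + 2 ^ s)) :
    (Real.exp 1 * (4 * X + 1 + n) / n) ^ n
      ≤ (2 : ℝ) ^ (2 * 8 ^ M * (3 * (u : ℝ) + 17) * (1 / 2) ^ s) := by
  have hn0 : 0 < n := by rw [hn]; exact Nat.succ_pos _
  have hnle : (8 : ℝ) ^ M / 2 ^ (4 * s) ≤ n := by
    have h1 : (8 ^ M : ℕ) < 2 ^ (4 * s) * (8 ^ M / 2 ^ (4 * s) + 1) :=
      Nat.lt_mul_div_succ _ (by positivity)
    rw [← hn] at h1
    have h2 : ((8 ^ M : ℕ) : ℝ) < ((2 ^ (4 * s) * n : ℕ) : ℝ) := by exact_mod_cast h1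
    push_cast at h2
    rw [div_le_iff₀ (by positivity)]
    linarith
  have hnge : (n : ℝ) ≤ 2 * ((8 : ℝ) ^ M / 2 ^ (4 * s)) := by
    have h1 : ((8 ^ M / 2 ^ (4 * s) : ℕ) : ℝ) ≤ ((8 ^ M : ℕ) : ℝ) / ((2 ^ (4 * s) : ℕ) : ℝ) :=
      Nat.cast_div_le
    push_cast at h1
    have h2 : (1 : ℝ) ≤ (8 : ℝ) ^ M / 2 ^ (4 * s) := by
      rw [le_div_iff₀ (by positivity), one_mul]
      calc (2 : ℝ) ^ (4 * s) ≤ 2 ^ M := pow_le_pow_right₀ (by norm_num) hs
        _ ≤ 8 ^ M := pow_le_pow_left₀ (by norm_num) (by norm_num) _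
    rw [hn]
    push_cast
    linarith
  have hXA : 4 * (X : ℝ) ≤ (n : ℝ) * (144 * (8 ^ (u + 2 ^ s) * 2 ^ (4 * s))) := by
    calc 4 * (X : ℝ) ≤ 144 * 8 ^ (M + u + 2 ^ s) := by linarith
      _ = (8 : ℝ) ^ M / 2 ^ (4 * s) * (144 * (8 ^ (u + 2 ^ s) * 2 ^ (4 * s))) := by
          rw [show M + u + 2 ^ s = M + (u + 2 ^ s) by ring, pow_add 8 M]
          field_simp
      _ ≤ _ := mul_le_mul_of_nonneg_right hnle (by positivity)
  refine (list_bits (r := 0) hn0 (by positivity) hXA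
    (e := 3 * ((u : ℝ) + 2 ^ s) + 4 * s + 10) ?_).trans ?_
  · have h1 : Real.exp 1 ≤ 4 := by
      have := Real.exp_one_lt_d9
      linarith
    have h2 : (2 : ℝ) ^ (3 * ((u : ℝ) + 2 ^ s) + 4 * s + 10) = 8 ^ (u + 2 ^ s) * 2 ^ (4 * s) * 2 ^ 10 := by
      have e1 : 3 * ((u : ℝ) + 2 ^ s) + 4 * s + 10 = ((3 * (u + 2 ^ s) + 4 * s + 10 : ℕ) : ℝ) := by
        push_cast; ring
      rw [e1, Real.rpow_natCast, pow_add, pow_add, pow_mul]
      norm_num
    rw [h2]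
    have h3 : (1 : ℝ) ≤ 8 ^ (u + 2 ^ s) * 2 ^ (4 * s) := by
      have a1 : (1 : ℝ) ≤ 8 ^ (u + 2 ^ s) := one_le_pow₀ (by norm_num)
      have a2 : (1 : ℝ) ≤ 2 ^ (4 * s) := one_le_pow₀ (by norm_num)
      nlinarith
    calc Real.exp 1 * (144 * (8 ^ (u + 2 ^ s) * 2 ^ (4 * s)) + 1 + 1)
        ≤ 4 * (144 * (8 ^ (u + 2 ^ s) * 2 ^ (4 * s)) + 1 + 1) := by
          apply mul_le_mul_of_nonneg_right h1 (by positivity)
      _ ≤ 8 ^ (u + 2 ^ s) * 2 ^ (4 * s) * 2 ^ 10 := by nlinarith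
  · apply Real.rpow_le_rpow_of_exponent_le (by norm_num)
    have hs2 : (s : ℝ) ≤ 2 ^ s := by
      have : s ≤ 2 ^ s := Nat.lt_two_pow_self.le
      exact_mod_cast this
    have h1s : (1 : ℝ) ≤ 2 ^ s := one_le_pow₀ (by norm_num)
    have hu : (0 : ℝ) ≤ u := Nat.cast_nonneg u
    have h1 : 3 * ((u : ℝ) + 2 ^ s) + 4 * s + 10 ≤ (3 * u + 17) * 2 ^ s := by nlinarith
    have h2 : (8 : ℝ) ^ M / 2 ^ (4 * s) * 2 ^ s ≤ 8 ^ M * (1 / 2) ^ s := by
      have e1 : (8 : ℝ) ^ M / 2 ^ (4 * s) * 2 ^ s = 8 ^ M * ((1 / 2) ^ s * (1 / 2) ^ (2 * s)) := by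
        rw [one_div_pow, one_div_pow, show 4 * s = s + (s + 2 * s) by ring, pow_add 2 s,
          pow_add 2 s (2 * s)]
        field_simp
      rw [e1]
      apply mul_le_mul_of_nonneg_left _ (by positivity)
      have : (1 / 2 : ℝ) ^ (2 * s) ≤ 1 := pow_le_one₀ (by norm_num) (by norm_num)
      have h0 : (0 : ℝ) ≤ (1 / 2) ^ s := by positivity
      nlinarith
    calc (n : ℝ) * (3 * ((u : ℝ) + 2 ^ s) + 4 * s + 10)
        ≤ (2 * ((8 : ℝ) ^ M / 2 ^ (4 * s))) * ((3 * u + 17) * 2 ^ s) :=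
          mul_le_mul hnge h1 (by positivity) (by positivity)
      _ = 2 * (3 * u + 17) * ((8 : ℝ) ^ M / 2 ^ (4 * s) * 2 ^ s) := by ring
      _ ≤ 2 * (3 * u + 17) * (8 ^ M * (1 / 2) ^ s) :=
          mul_le_mul_of_nonneg_left h2 (by positivity)
      _ = _ := by ring

/-- all scales together -/
theorem bits_far {M u : ℕ} (hM : 4 * Nat.size M ≤ M) (X n : ℕ → ℕ)
    (hn : ∀ s, n s = 8 ^ M / 2 ^ (4 * s) + 1)
    (hX : ∀ s, (X s : ℝ) ≤ 36 * 8 ^ (M + u + 2 ^ s)) :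
    ∏ s ∈ range (Nat.size M + 1), (Real.exp 1 * (4 * X s + 1 + n s) / n s) ^ n s
      ≤ (2 : ℝ) ^ (4 * 8 ^ M * (3 * (u : ℝ) + 17)) := by
  have h1 : ∏ s ∈ range (Nat.size M + 1), (Real.exp 1 * (4 * X s + 1 + n s) / n s) ^ n s
      ≤ ∏ s ∈ range (Nat.size M + 1), (2 : ℝ) ^ (2 * 8 ^ M * (3 * (u : ℝ) + 17) * (1 / 2) ^ s) := by
    refine Finset.prod_le_prod (fun s _ => by positivity) fun s hs => ?_
    rw [mem_range] at hs
    exact bits_scale (hn s) (by omega) (hX s)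
  refine h1.trans ?_
  rw [← Real.rpow_sum_of_pos (by norm_num), ← Finset.mul_sum]
  apply Real.rpow_le_rpow_of_exponent_le (by norm_num)
  have h2 : ∑ s ∈ range (Nat.size M + 1), (1 / 2 : ℝ) ^ s ≤ 2 := by
    have h3 := (summable_geometric_of_lt_one (by norm_num) (by norm_num : (1 / 2 : ℝ) < 1)).sum_le_tsum
      (range (Nat.size M + 1)) (fun k _ => by positivity)
    rw [tsum_geometric_of_lt_one (by norm_num) (by norm_num)] at h3
    norm_num at h3 ⊢
    exact h3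
  have h4 : (0 : ℝ) ≤ 2 * 8 ^ M * (3 * (u : ℝ) + 17) := by positivity
  nlinarith [mul_le_mul_of_nonneg_left h2 h4]

/-- the cost of the positions and values -/
theorem bits_near {M u j X : ℕ} (hX : (X : ℝ) ≤ 36 * 8 ^ (M + u)) (Q : ℝ)
    (hQ : Q = 16 * 8 ^ (6 * j + 8)) :
    (Real.exp 1 * ((X : ℝ) * (2 * (⌈Q⌉₊ : ℝ) + 3) ^ 2 + 1 + ((8 ^ M : ℕ) : ℝ)) / ((8 ^ M : ℕ) : ℝ)) ^ (8 ^ M)
      ≤ (2 : ℝ) ^ ((8 : ℝ) ^ M * (3 * u + 36 * j + 66)) := by
  have hceil : (⌈Q⌉₊ : ℝ) = 16 * 8 ^ (6 * j + 8) := by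
    have : Q = ((16 * 8 ^ (6 * j + 8) : ℕ) : ℝ) := by rw [hQ]; push_cast; rfl
    rw [this, Nat.ceil_natCast]
    push_cast
    rfl
  rw [hceil]
  have h1 : (1 : ℝ) ≤ 8 ^ (6 * j + 8) := one_le_pow₀ (by norm_num)
  have h2 : (2 * (16 * (8 : ℝ) ^ (6 * j + 8)) + 3) ^ 2 ≤ 1225 * 8 ^ (12 * j + 16) := by
    have h3 : (2 * (16 * (8 : ℝ) ^ (6 * j + 8)) + 3) ^ 2 ≤ (35 * 8 ^ (6 * j + 8)) ^ 2 :=
      pow_le_pow_left₀ (by positivity) (by linarith) 2
    refine h3.trans (le_of_eq ?_)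
    rw [mul_pow, ← pow_mul, show (6 * j + 8) * 2 = 12 * j + 16 by ring]
    norm_num
  have hXA : (X : ℝ) * (2 * (16 * (8 : ℝ) ^ (6 * j + 8)) + 3) ^ 2
      ≤ ((8 ^ M : ℕ) : ℝ) * (44100 * 8 ^ (u + (12 * j + 16))) := by
    calc (X : ℝ) * (2 * (16 * (8 : ℝ) ^ (6 * j + 8)) + 3) ^ 2
        ≤ (36 * 8 ^ (M + u)) * (1225 * 8 ^ (12 * j + 16)) :=
          mul_le_mul hX h2 (by positivity) (by positivity)
      _ = _ := by
          push_cast
          rw [pow_add 8 M, pow_add 8 u]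
          ring
  refine (list_bits (r := 0) (by positivity) (by positivity) hXA
    (e := 3 * (u : ℝ) + 36 * j + 66) ?_).trans ?_
  · have h4 : Real.exp 1 ≤ 4 := by
      have := Real.exp_one_lt_d9
      linarith
    have h5 : (2 : ℝ) ^ (3 * (u : ℝ) + 36 * j + 66) = 8 ^ (u + (12 * j + 16)) * 2 ^ 18 := by
      have e1 : 3 * (u : ℝ) + 36 * j + 66 = ((3 * (u + (12 * j + 16)) + 18 : ℕ) : ℝ) := by
        push_cast; ring
      rw [e1, Real.rpow_natCast, pow_add, pow_mul]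
      norm_num
    rw [h5]
    have h6 : (1 : ℝ) ≤ 8 ^ (u + (12 * j + 16)) := one_le_pow₀ (by norm_num)
    calc Real.exp 1 * (44100 * 8 ^ (u + (12 * j + 16)) + 1 + 1)
        ≤ 4 * (44100 * 8 ^ (u + (12 * j + 16)) + 1 + 1) :=
          mul_le_mul_of_nonneg_right h4 (by positivity)
      _ ≤ 8 ^ (u + (12 * j + 16)) * 2 ^ 18 := by nlinarith
  · push_cast
    exact le_refl _

/-- the trigonometric polynomial with given coefficients -/
noncomputable def pol {M : ℕ} (D : Finset (G M)) (q : D → ℂ) (x : G M) : ℂ :=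
  ∑ k : G M, ext0 D q k * ch2 k x

theorem co2_pol {M : ℕ} (D : Finset (G M)) (q : D → ℂ) (k : G M) :
    co2 (pol D q) k = ext0 D q k :=
  co2_of_eq _ _ (fun _ => rfl) k

theorem colAct (hW : StWl) : StColAct := by
  classical
  refine ⟨3, fun j0 j u M hP act h b phi hRS hE => ?_⟩
  obtain ⟨hLg, hJok, hsz⟩ := par_facts hP
  obtain ⟨Js, hJs, hsum⟩ := far_part hW hP act h b phi hRS hE
  have hRb := hE.rng
  obtain ⟨hLb, hLc⟩ := H6.CP.Rg_large hRb hLg
  obtain ⟨hdb, hdc⟩ := H6.CP.Rg_dvd hRb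
  have hbM : b < M := hRb.2.1
  have hub : u ≤ b := hRb.2.2.1
  set c := M + u - b with hc
  have hbc : b + c = M + u := by omega
  have h6b : 6 * 8 ^ b ≤ LL M := by
    have := Nat.le_of_dvd (by unfold LL; positivity) hdb
    rw [pow_succ] at this
    omega
  have h6c : 6 * 8 ^ c ≤ LL M := by
    have := Nat.le_of_dvd (by unfold LL; positivity) hdc
    rw [pow_succ] at this
    omega
  set Mu := DD M (j + 1) b c with hMu
  have h8M : (0 : ℝ) < Real.sqrt (8 ^ M) := by positivity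
  set θ : ℝ := 8 ^ (2 * j) / (16 * Real.sqrt (8 ^ M)) with hθ
  have hθ0 : 0 < θ := by positivity
  set R : ℝ := Real.sqrt (TH (j + 1) / 8 ^ M) with hRdef
  have hRθ : R / θ = 16 * 8 ^ (6 * j + 8) := by
    rw [hRdef, hθ, sqrt_TH, show 8 * (j + 1) = (6 * j + 8) + 2 * j by ring, pow_add]
    field_simp
  set n : ℕ → ℕ := fun s => 8 ^ M / 2 ^ (4 * s) + 1 with hn
  set m : Mu → ℂ := fun μ => (ka j b (fa μ.1.1) : ℂ) * (ka j c (fa μ.1.2) : ℂ) with hm
  set known : Mu → ℂ := fun μ => ∑ lam : G M, phi lam * co2 (wl j b c (Psi h b) lam) μ.1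
    with hknown
  have hn' : ∀ s, (8 : ℝ) ^ M / 2 ^ (4 * s) ≤ n s := by
    intro s
    have h1 : (8 ^ M : ℕ) < 2 ^ (4 * s) * (8 ^ M / 2 ^ (4 * s) + 1) :=
      Nat.lt_mul_div_succ _ (by positivity)
    have h2 : ((8 ^ M : ℕ) : ℝ) < ((2 ^ (4 * s) * n s : ℕ) : ℝ) := by exact_mod_cast h1
    push_cast at h2
    rw [div_le_iff₀ (by positivity)]
    linarith
  obtain ⟨PP, hPP, hPP'⟩ := active_code (Mu := Mu) (range (Nat.size M + 1))
    (fun s => (Js s : Type)) (fun s lam μ => co2 (wl j b c (Psi h b) lam.1) μ.1)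
    (fun s => 8 ^ M * Real.sqrt (TH (j + 1 + s) / 8 ^ M))
    (fun s => (64 * CV j * 8 ^ (SG u j)) ^ 2 / 2 ^ (JJ u j + 60 * s)) n
    (fun s => (1 / 64) * (1 / 2 : ℝ) ^ s)
    (fun s _ => by unfold TH; positivity)
    (fun s _ => by positivity)
    (by
      intro s _ lam
      obtain ⟨a, ha, hab, hs, -, hbd⟩ := hJs s lam.1 lam.2
      have h1 := wl_L2 (Psi h b) lam.1 _ hbd
      have h2 : ∑ μ : Mu, ‖co2 (wl j b c (Psi h b) lam.1) μ.1‖ ^ 2
          ≤ ∑ μ : G M, ‖co2 (wl j b c (Psi h b) lam.1) μ‖ ^ 2 := by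
        rw [Finset.sum_coe_sort Mu (fun μ => ‖co2 (wl j b c (Psi h b) lam.1) μ‖ ^ 2)]
        exact Finset.sum_le_sum_of_subset_of_nonneg (Finset.subset_univ _)
          (fun _ _ _ => by positivity)
      refine h2.trans (h1.trans ?_)
      rw [div_pow]
      apply div_le_div_of_nonneg_left (by positivity) (by positivity)
      rw [← pow_mul]
      apply pow_le_pow_right₀ (by norm_num)
      unfold gapLen
      have hsl : Nat.size (b - a) ≤ Nat.log 2 (b - a) + 1 :=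
        Nat.size_le.2 (Nat.lt_pow_succ_log_self one_lt_two _)
      omega)
    (fun s _ => Nat.succ_pos _)
    (fun s _ => by positivity)
    (fun s _ => tau_scale M u j s (n s) (hn' s) (Nat.succ_pos _))
    m (by
      intro μ
      rw [hm]
      simp only
      rw [norm_mul, Complex.norm_real, Complex.norm_real, Real.norm_eq_abs, Real.norm_eq_abs,
        abs_of_nonneg (ka_nonneg hLb _), abs_of_nonneg (ka_nonneg hLc _)]
      exact mul_le_one₀ (ka_le_one hLb _) (ka_nonneg hLc _) (ka_le_one hLc _))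
    known (fun μ => phi μ.1) θ R hθ0 (8 ^ M) (by positivity)
  -- the candidates
  set good : (Mu → ℂ) → (Gr (b + 1) (c + 1) → ℝ) → Prop := fun q η =>
    Adm j b c (JJ u j) (SG u j) (Psi h b) η ∧
      7 / 8 * 8 ^ (2 * j) ≤ avgR _ _ (fun y => η y * (pol Mu q (pt (b + 1) (c + 1) y)).re) with hgood
  set et : (Mu → ℂ) → (Gr (b + 1) (c + 1) → ℝ) := fun q =>
    if hq : ∃ η, good q η then hq.choose else fun _ => 0 with het
  refine ⟨PP.image (fun q => (et q.2, fun k => if k ∈ DD M j b c then ext0 Mu q.1 k else 0)),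
    ?_, ?_⟩
  · refine le_trans (by exact_mod_cast Finset.card_image_le) (hPP.trans ?_)
    have hA := bits_near (M := M) (u := u) (j := j) (X := Fintype.card Mu) (by
      rw [Fintype.card_coe, ← hbc]
      exact card_DD M (j + 1) b c) (R / θ) hRθ
    have hB := bits_far (M := M) (u := u) hsz (fun s => Fintype.card (Js s)) n (fun s => rfl) (by
      intro s
      simp only [Fintype.card_coe]
      exact card_scale hbM (Js s) (fun lam hl => by
        obtain ⟨a, h1, h2, h3, h4, -⟩ := hJs s lam hl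
        exact ⟨a, h1, h2, h3, h4⟩))
    refine (mul_le_mul hA hB (Finset.prod_nonneg fun s _ => by positivity) (by positivity)).trans ?_
    rw [← Real.rpow_add (by norm_num)]
    apply Real.rpow_le_rpow_of_exponent_le (by norm_num)
    unfold cex
    have h3 : (0 : ℝ) < 8 ^ M := by positivity
    have h4 : (0 : ℝ) ≤ u := Nat.cast_nonneg u
    have h5 : (0 : ℝ) ≤ j := Nat.cast_nonneg j
    have h6 : (3 * (u : ℝ) + 36 * j + 66) + 4 * (3 * (u : ℝ) + 17) ≤ 400 * (u + j + 1) := by linarith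
    calc (8 : ℝ) ^ M * (3 * u + 36 * j + 66) + 4 * 8 ^ M * (3 * u + 17)
        = 8 ^ M * ((3 * (u : ℝ) + 36 * j + 66) + 4 * (3 * (u : ℝ) + 17)) := by ring
      _ ≤ 8 ^ M * (400 * (u + j + 1)) := mul_le_mul_of_nonneg_left h6 h3.le
      _ = 400 * 8 ^ M * (u + j + 1) := by ring
  · intro w hk hcm hex
    obtain ⟨ηs, hηs1, hηs2⟩ := hex
    have hR : ∀ μ : Mu, ‖co2 (cx w.g) μ.1 - phi μ.1‖ ≤ R := fun μ =>
      know_block (le_trans hP.h2 (by omega)) hk hRb hcm _ μ.2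
    obtain ⟨q, hq, hq1, hq2, hq3⟩ := hPP' (fun μ => co2 (cx w.g) μ.1)
      (fun s lam => co2 (cx w.g) lam.1 - phi lam.1)
      (by
        intro s _
        rw [Finset.sum_coe_sort (Js s) (fun lam => ‖co2 (cx w.g) lam - phi lam‖)]
        exact sum_scale hP act h b phi hRS hE (Js s) s (fun lam hl => by
          obtain ⟨a, h1, h2, h3, h4, -⟩ := hJs s lam hl
          exact ⟨a, h1, h2, h3, h4⟩) w hk hcm)
      hR (card_nonzero hcm)
    set Gw : G M → ℂ := loc j b c (cx (fun x => w.g x * Psi h b x)) with hGw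
    have hrep : ∀ μ : Mu, co2 Gw μ.1 = m μ * co2 (cx w.g) μ.1 + known μ +
        ∑ s ∈ range (Nat.size M + 1), ∑ lam : Js s,
          (co2 (cx w.g) lam.1 - phi lam.1) * co2 (wl j b c (Psi h b) lam.1) μ.1 := by
      intro μ
      rw [hGw, co2_loc_mul hLb hLc h6b h6c]
      have e1 : ∑ s ∈ range (Nat.size M + 1), ∑ lam : Js s,
          (co2 (cx w.g) lam.1 - phi lam.1) * co2 (wl j b c (Psi h b) lam.1) μ.1
          = ∑ lam : G M, (co2 (cx w.g) lam - phi lam) * co2 (wl j b c (Psi h b) lam) μ.1 := by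
        rw [hsum (fun lam => co2 (cx w.g) lam - phi lam) μ.1]
        refine Finset.sum_congr rfl fun s _ => ?_
        exact Finset.sum_coe_sort (Js s)
          (fun lam => (co2 (cx w.g) lam - phi lam) * co2 (wl j b c (Psi h b) lam) μ.1)
      rw [e1, hm, hknown]
      simp only
      rw [add_assoc, ← Finset.sum_add_distrib]
      congr 1
      refine Finset.sum_congr rfl fun lam _ => ?_
      ring
    have hzero : ∀ k, k ∉ Mu → co2 (fun x => Gw x - pol Mu q.2 x) k = 0 := by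
      intro k hk0
      rw [co2_sub, co2_pol, ext0_not _ hk0, hGw, co2_loc hLb hLc h6b h6c]
      have h1 : ¬ (Half j b (fa k.1) ∧ Half j c (fa k.2)) := by
        intro h2
        exact hk0 (mem_DD.2 ⟨h2.1.band, h2.2.band⟩)
      rw [not_and_or] at h1
      rcases h1 with h1 | h1
      · rw [ka_zero hLb h1]; simp
      · rw [ka_zero hLc h1]; simp
    have hmem : ∀ μ : Mu, co2 (fun x => Gw x - pol Mu q.2 x) μ.1 = co2 Gw μ.1 - q.2 μ := by
      intro μ
      rw [co2_sub, co2_pol, ext0_mem _ μ.2]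
    have hL2 : ∑ k : G M, ‖co2 (fun x => Gw x - pol Mu q.2 x) k‖ ^ 2 ≤ (8 ^ (2 * j) / 8) ^ 2 := by
      have e1 : ∑ k : G M, ‖co2 (fun x => Gw x - pol Mu q.2 x) k‖ ^ 2
          = ∑ μ : Mu, ‖co2 Gw μ.1 - q.2 μ‖ ^ 2 := by
        have e2 : ∑ k ∈ Mu, ‖co2 (fun x => Gw x - pol Mu q.2 x) k‖ ^ 2
            = ∑ k : G M, ‖co2 (fun x => Gw x - pol Mu q.2 x) k‖ ^ 2 := by
          refine Finset.sum_subset (Finset.subset_univ _) fun k _ hk0 => ?_
          rw [hzero k hk0]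
          simp
        rw [← e2, ← Finset.sum_coe_sort Mu]
        refine Finset.sum_congr rfl fun μ _ => ?_
        rw [hmem]
      rw [e1]
      have e3 : ∑ μ : Mu, ‖co2 Gw μ.1 - q.2 μ‖ ^ 2 ≤
          (√((8 ^ M : ℕ) : ℝ) * θ + ∑ s ∈ range (Nat.size M + 1), (1 / 64) * (1 / 2 : ℝ) ^ s) ^ 2 := by
        refine le_trans (le_of_eq ?_) hq3
        refine Finset.sum_congr rfl fun μ _ => ?_
        rw [hrep μ]
      refine e3.trans (pow_le_pow_left₀ (by positivity) ?_ 2)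
      have e4 : √((8 ^ M : ℕ) : ℝ) * θ = 8 ^ (2 * j) / 16 := by
        rw [hθ]
        push_cast
        field_simp
      have e5 : ∑ s ∈ range (Nat.size M + 1), (1 / 64) * (1 / 2 : ℝ) ^ s ≤ 1 / 32 := by
        rw [← Finset.mul_sum]
        have h3 := (summable_geometric_of_lt_one (by norm_num)
          (by norm_num : (1 / 2 : ℝ) < 1)).sum_le_tsum
          (range (Nat.size M + 1)) (fun k _ => by positivity)
        rw [tsum_geometric_of_lt_one (by norm_num) (by norm_num)] at h3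
        norm_num at h3 ⊢
        linarith
      have e6 : (1 : ℝ) ≤ 8 ^ (2 * j) := one_le_pow₀ (by norm_num)
      rw [e4]
      linarith
    have hband : ∀ k, co2 (fun x => Gw x - pol Mu q.2 x) k ≠ 0 →
        fa k.1 < 3 * 8 ^ b ∧ fa k.2 < 3 * 8 ^ c := by
      intro k hk0
      have h1 : k ∈ Mu := by
        by_contra h2
        exact hk0 (hzero k h2)
      have h2 := mem_DD.1 h1
      exact ⟨h2.1.lt, h2.2.lt⟩
    have hcl : ∀ η : Gr (b + 1) (c + 1) → ℝ, (∀ y, |η y| ≤ 1) →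
        |tst j b c (Psi h b) w.g η
          - avgR _ _ (fun y => η y * (pol Mu q.2 (pt (b + 1) (c + 1) y)).re)| ≤ 8 ^ (2 * j) / 8 := by
      intro η hη
      exact avgR_close hdb hdc Gw (pol Mu q.2) _ (by positivity) hband hL2 η hη
    have hex : ∃ η, good q.2 η := by
      refine ⟨ηs, hηs1, ?_⟩
      have h1 := (abs_le.1 (hcl ηs hηs1.1)).2
      linarith
    have hetq : good q.2 (et q.2) := by
      rw [het]
      simp only
      rw [dif_pos hex]
      exact hex.choose_spec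
    refine ⟨_, Finset.mem_image_of_mem _ hq, hetq.1, ?_, ⟨?_, ?_⟩, ?_⟩
    · have h1 := (abs_le.1 (hcl (et q.2) hetq.1.1)).1
      have h2 := hetq.2
      have h3 : (0 : ℝ) < 8 ^ (2 * j) := by positivity
      simp only
      linarith
    · intro k hk0
      simp only at hk0
      by_cases hkD : k ∈ DD M j b c
      · rw [if_pos hkD] at hk0
        have hkM : k ∈ Mu := by
          have h1 := mem_DD.1 hkD
          exact mem_DD.2 ⟨h1.1.mono (by omega), h1.2.mono (by omega)⟩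
        rw [ext0_mem _ hkM] at hk0
        by_contra h2
        exact hk0 (hq2 ⟨k, hkM⟩ (w.spec _ h2))
      · rw [if_neg hkD] at hk0
        exact absurd rfl hk0
    · intro k hkD
      have hkM : k ∈ Mu := by
        have h1 := mem_DD.1 hkD
        exact mem_DD.2 ⟨h1.1.mono (by omega), h1.2.mono (by omega)⟩
      simp only
      rw [if_pos hkD, ext0_mem _ hkM]
      have h1 := hq1 ⟨k, hkM⟩
      have h2 : θ ≤ Real.sqrt (TH j / 8 ^ M) := by
        rw [hθ, sqrt_TH]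
        rw [div_le_div_iff₀ (by positivity) h8M]
        have h3 : (8 : ℝ) ^ (2 * j) ≤ 8 ^ (8 * j) := pow_le_pow_right₀ (by norm_num) (by omega)
        calc (8 : ℝ) ^ (2 * j) * Real.sqrt (8 ^ M) ≤ 8 ^ (8 * j) * (16 * Real.sqrt (8 ^ M)) := by
              apply mul_le_mul h3 (by linarith) h8M.le (by positivity)
          _ = _ := rfl
      calc ‖co2 (cx w.g) k - q.1 ⟨k, hkM⟩‖ ^ 2 ≤ (Real.sqrt (TH j / 8 ^ M)) ^ 2 :=
            pow_le_pow_left₀ (norm_nonneg _) (h1.trans h2) 2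
        _ = TH j / 8 ^ M := by
          rw [Real.sq_sqrt]
          unfold TH
          positivity
    · intro k hkD
      simp only
      rw [if_neg hkD]

end Pool.Agent.H58.CP
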