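import Pool.Agent.H98.CP.St
import Pool.Agent.H74.CM.Active

set_option autoImplicit false
set_option linter.unusedVariables false

/-! A column described by a list of its coefficients. -/

namespace Pool.Agent.H58.CP

open Finset ComplexConjugate H95.CP H67.CM Pool.Agent.H98.CP Pool.Agent.H74.CM

/-- number of frequencies in a block -/
theorem card_DD (M j b c : ℕ) : ((DD M j b c).card : ℝ) ≤ 36 * 8 ^ (b + c) := by
  classical
  have h1 : DD M j b c ⊆ (univ.filter (fun k : ZMod (LL M) => fa k < 3 * 8 ^ b)) ×ˢ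
      (univ.filter (fun k : ZMod (LL M) => fa k < 3 * 8 ^ c)) := by
    intro k hk
    unfold DD at hk
    rw [mem_filter] at hk
    rw [mem_product, mem_filter, mem_filter]
    exact ⟨⟨mem_univ _, hk.2.1.lt⟩, ⟨mem_univ _, hk.2.2.lt⟩⟩
  have h2 : (DD M j b c).card ≤ (2 * (3 * 8 ^ b)) * (2 * (3 * 8 ^ c)) := by
    refine (card_le_card h1).trans ?_
    rw [card_product]
    exact Nat.mul_le_mul (card_fa_lt _) (card_fa_lt _)
  have h3 : (2 * (3 * 8 ^ b)) * (2 * (3 * 8 ^ c)) = 36 * 8 ^ (b + c) := by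
    rw [pow_add]; ring
  rw [h3] at h2
  exact_mod_cast h2

theorem mem_DD {M j b c : ℕ} {k : G M} :
    k ∈ DD M j b c ↔ Band j b (fa k.1) ∧ Band j c (fa k.2) := by
  unfold DD
  simp

theorem mem_colm {M : ℕ} {Lam : Finset (G M)} {b : ℕ} {k : G M} :
    k ∈ colm Lam b ↔ k ∈ Lam ∧ 8 ^ b < 2 * fa k.1 ∧ fa k.1 < 3 * 8 ^ b := by
  unfold colm
  simp

open scoped Classical in
/-- extension by zero -/
noncomputable def ext0 {M : ℕ} (D : Finset (G M)) (q : D → ℂ) (k : G M) : ℂ :=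
  if h : k ∈ D then q ⟨k, h⟩ else 0

theorem ext0_mem {M : ℕ} {D : Finset (G M)} (q : D → ℂ) {k : G M} (h : k ∈ D) :
    ext0 D q k = q ⟨k, h⟩ := by
  unfold ext0
  rw [dif_pos h]

theorem ext0_not {M : ℕ} {D : Finset (G M)} (q : D → ℂ) {k : G M} (h : k ∉ D) :
    ext0 D q k = 0 := by
  unfold ext0
  rw [dif_neg h]

/-- a bound of the number of lists by a power of two -/
theorem list_bits {X r A : ℝ} {n : ℕ} (hn : 0 < n) (hX : 0 ≤ X) (h : X ≤ (n : ℝ) * A)
    {e : ℝ} (he : Real.exp 1 * (A + 1 + 1) ≤ (2 : ℝ) ^ e) :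
    (Real.exp 1 * (X + 1 + n) / n) ^ n ≤ (2 : ℝ) ^ ((n : ℝ) * e) := by
  have hn' : (0 : ℝ) < n := by exact_mod_cast hn
  have hn1 : (1 : ℝ) ≤ n := by exact_mod_cast hn
  have h1 : Real.exp 1 * (X + 1 + n) / n ≤ (2 : ℝ) ^ e := by
    refine le_trans ?_ he
    rw [div_le_iff₀ hn', mul_assoc]
    apply mul_le_mul_of_nonneg_left _ (Real.exp_pos 1).le
    nlinarith
  calc (Real.exp 1 * (X + 1 + n) / n) ^ n ≤ ((2 : ℝ) ^ e) ^ n := by
        apply pow_le_pow_left₀ _ h1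
        have := Real.exp_pos 1
        positivity
    _ = (2 : ℝ) ^ ((n : ℝ) * e) := by
        rw [← Real.rpow_natCast, ← Real.rpow_mul (by norm_num)]
        congr 1
        ring

theorem sqrt_TH (j M : ℕ) : Real.sqrt (TH j / 8 ^ M) = 8 ^ (8 * j) / Real.sqrt (8 ^ M) := by
  unfold TH
  rw [Real.sqrt_div (by positivity)]
  congr 1
  rw [show (16 * j) = (8 * j) * 2 by ring, pow_mul, Real.sqrt_sq (by positivity)]

theorem know_block {M j0 j u b : ℕ} {phi : G M → ℂ} {w : Cf M} (hj : j0 + Nat.size u ≤ j)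
    (hk : Know j0 j phi w) (hR : Rg M u b) (hc : (colm w.Lam b).card ≤ 8 ^ M) :
    ∀ k ∈ DD M j b (M + u - b), ‖co2 (cx w.g) k - phi k‖ ≤ Real.sqrt (TH j / 8 ^ M) := by
  intro k hkk
  have h1 := hk.2 b u hR hc k hkk
  rw [max_eq_left hj] at h1
  exact Real.le_sqrt_of_sq_le h1

/-- the nonzero coefficients of a block -/
theorem card_nonzero {M j b c : ℕ} {w : Cf M} (hc : (colm w.Lam b).card ≤ 8 ^ M) :
    (univ.filter (fun μ : DD M j b c => co2 (cx w.g) μ.1 ≠ 0)).card ≤ 8 ^ M := by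
  classical
  refine le_trans ?_ hc
  refine Finset.card_le_card_of_injOn (fun μ => μ.1) ?_ ?_
  · intro μ hμ
    rw [mem_coe, mem_filter] at hμ
    rw [mem_coe, mem_colm]
    have h1 := mem_DD.1 μ.2
    refine ⟨?_, h1.1.gt, h1.1.lt⟩
    by_contra h2
    exact hμ.2 (w.spec _ h2)
  · intro μ _ ν _ h
    exact Subtype.ext h

theorem colList : StColList := by
  classical
  refine ⟨0, fun j0 j u M hP b phi hR => ?_⟩
  set c := M + u - b with hc
  have hb : b < M := hR.2.1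
  have hbc : b + c = M + u := by omega
  set θ : ℝ := Real.sqrt (TH j / 8 ^ M) with hθ
  have hθ0 : 0 < θ := by
    rw [hθ]
    apply Real.sqrt_pos.2
    unfold TH
    positivity
  set R : ℝ := Real.sqrt (TH (j + 1) / 8 ^ M) with hRdef
  have hRθ : R / θ = 8 ^ 8 := by
    rw [hRdef, hθ, sqrt_TH, sqrt_TH]
    have h8 : (0 : ℝ) < Real.sqrt (8 ^ M) := by positivity
    rw [div_div_div_cancel_right₀ h8.ne', show 8 * (j + 1) = 8 * j + 8 by ring, pow_add]
    field_simp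
  obtain ⟨PP, hPP, hPP'⟩ := sparse_code (Mu := DD M j b c) (fun μ => phi μ.1) θ R hθ0 (8 ^ M)
    (by positivity)
  refine ⟨PP.image (fun q => ext0 (DD M j b c) q), ?_, ?_⟩
  · refine le_trans (by exact_mod_cast Finset.card_image_le) (hPP.trans ?_)
    rw [hRθ]
    have hceil : (⌈(8 : ℝ) ^ 8⌉₊ : ℝ) = 8 ^ 8 := by
      have : ((8 : ℝ) ^ 8) = ((8 ^ 8 : ℕ) : ℝ) := by norm_num
      rw [this, Nat.ceil_natCast]
    rw [hceil]
    have hcard : (Fintype.card (DD M j b c) : ℝ) ≤ 36 * 8 ^ (M + u) := by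
      rw [Fintype.card_coe, ← hbc]
      exact card_DD M j b c
    have hX : (Fintype.card (DD M j b c) : ℝ) * (2 * 8 ^ 8 + 3) ^ 2
        ≤ ((8 ^ M : ℕ) : ℝ) * (36 * 8 ^ u * (2 * 8 ^ 8 + 3) ^ 2) := by
      push_cast
      rw [pow_add] at hcard
      nlinarith [hcard]
    refine (list_bits (r := 0) (by positivity) (by positivity) hX
      (e := 3 * (u : ℝ) + 60) ?_).trans ?_
    · have h1 : Real.exp 1 ≤ 4 := by
        have := Real.exp_one_lt_d9
        linarith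
      have h2 : (2 : ℝ) ^ (3 * (u : ℝ) + 60) = 8 ^ u * 2 ^ 60 := by
        rw [Real.rpow_add (by norm_num), Real.rpow_mul (by norm_num)]
        norm_num
      rw [h2]
      have h3 : (1 : ℝ) ≤ 8 ^ u := one_le_pow₀ (by norm_num)
      calc Real.exp 1 * (36 * 8 ^ u * (2 * 8 ^ 8 + 3) ^ 2 + 1 + 1)
          ≤ 4 * (36 * 8 ^ u * (2 * 8 ^ 8 + 3) ^ 2 + 1 + 1) := by
            apply mul_le_mul_of_nonneg_right h1 (by positivity)
        _ ≤ 8 ^ u * 2 ^ 60 := by nlinarith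
    · apply Real.rpow_le_rpow_of_exponent_le (by norm_num)
      unfold cex
      push_cast
      have h3 : (0 : ℝ) < 8 ^ M := by positivity
      have h4 : (0 : ℝ) ≤ u := Nat.cast_nonneg u
      have h5 : (0 : ℝ) ≤ j := Nat.cast_nonneg j
      have h6 : 3 * (u : ℝ) + 60 ≤ 400 * (u + j + 1) := by linarith
      calc (8 : ℝ) ^ M * (3 * u + 60) ≤ 8 ^ M * (400 * (u + j + 1)) :=
            mul_le_mul_of_nonneg_left h6 h3.le
        _ = 400 * 8 ^ M * (u + j + 1) := by ring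
  · intro w hk hcm
    have hg : ∀ μ : DD M j b c, ‖co2 (cx w.g) μ.1 - phi μ.1‖ ≤ R := by
      intro μ
      have h1 : μ.1 ∈ DD M (j + 1) b c := by
        have := mem_DD.1 μ.2
        exact mem_DD.2 ⟨this.1.mono (by omega), this.2.mono (by omega)⟩
      exact know_block (le_trans hP.h2 (by omega)) hk hR hcm _ h1
    obtain ⟨q, hq, hq1, hq2, -⟩ := hPP' (fun μ => co2 (cx w.g) μ.1) hg (card_nonzero hcm)
    refine ⟨_, Finset.mem_image_of_mem _ hq, ⟨?_, ?_⟩, ?_⟩
    · intro k hk0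
      by_cases h : k ∈ DD M j b c
      · rw [ext0_mem q h] at hk0
        by_contra h2
        exact hk0 (hq2 ⟨k, h⟩ (w.spec _ h2))
      · rw [ext0_not q h] at hk0
        exact absurd rfl hk0
    · intro k hkD
      rw [ext0_mem q hkD]
      have h1 := hq1 ⟨k, hkD⟩
      calc ‖co2 (cx w.g) k - q ⟨k, hkD⟩‖ ^ 2 ≤ θ ^ 2 := pow_le_pow_left₀ (norm_nonneg _) h1 2
        _ = TH j / 8 ^ M := by
          rw [hθ, Real.sq_sqrt]
          unfold TH
          positivity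
    · intro k hkD
      rw [ext0_not q hkD]

end Pool.Agent.H58.CP
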